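import Mathlib
import Pool.Agent.H2.BoolInj

/-!
# Pure simplicial forests have the strong Lefschetz property

A simplicial complex on the vertex set `{1, ..., n}` is here a set `Δ` of finite subsets of
`Fin n` which is closed under taking subsets (`IsLowerSet Δ`).
-/

namespace Pool.Agent.Results.MP_cb4cd2_al.PureForestSLP

open MvPolynomial

variable {n : ℕ}

/-- A facet of `Δ`: a maximal face. -/
def IsFacet (Δ : Set (Finset (Fin n))) (F : Finset (Fin n)) : Prop :=
  Maximal (fun σ => σ ∈ Δ) F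

/-- `Δ` is pure: all facets have the same dimension. -/
def IsPure (Δ : Set (Finset (Fin n))) : Prop :=
  ∀ F G, IsFacet Δ F → IsFacet Δ G → F.card = G.card

/-- `F` is a leaf of `Δ`: it is a facet, and either it is the only facet, or there is a facet
`G ≠ F` such that `F ∩ F' ⊆ F ∩ G` for every facet `F' ≠ F`. -/
def IsLeaf (Δ : Set (Finset (Fin n))) (F : Finset (Fin n)) : Prop :=
  IsFacet Δ F ∧
    ((∀ F', IsFacet Δ F' → F' = F) ∨
      ∃ G, IsFacet Δ G ∧ G ≠ F ∧ ∀ F', IsFacet Δ F' → F' ≠ F → F ∩ F' ⊆ F ∩ G)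

/-- The complex generated by a set of finite sets: all subsets of members of `S`. -/
def generatedBy (S : Set (Finset (Fin n))) : Set (Finset (Fin n)) :=
  {σ | ∃ F ∈ S, σ ⊆ F}

/-- Two vertices are joined in `Δ` by a path of edges of `Δ`. -/
def Joined (Δ : Set (Finset (Fin n))) (u v : Fin n) : Prop :=
  Relation.ReflTransGen (fun a b => ({a, b} : Finset (Fin n)) ∈ Δ) u v

/-- `Δ` is connected: any two vertices are joined by a path of edges. -/
def IsConnected (Δ : Set (Finset (Fin n))) : Prop :=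
  ∀ u v, {u} ∈ Δ → {v} ∈ Δ → Joined Δ u v

/-- Simplicial tree: connected, and every subcomplex generated by a nonempty set of facets
has a leaf. -/
def IsSimplicialTree (Δ : Set (Finset (Fin n))) : Prop :=
  IsConnected Δ ∧ ∀ S : Set (Finset (Fin n)), S.Nonempty → (∀ F ∈ S, IsFacet Δ F) →
    ∃ F, IsLeaf (generatedBy S) F

/-- The connected component of the vertex `u` in `Δ`. -/
def component (Δ : Set (Finset (Fin n))) (u : Fin n) : Set (Finset (Fin n)) :=
  {σ | σ ∈ Δ ∧ ∀ v ∈ σ, Joined Δ u v}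

/-- Simplicial forest: every connected component is a simplicial tree. -/
def IsSimplicialForest (Δ : Set (Finset (Fin n))) : Prop :=
  ∀ u, {u} ∈ Δ → IsSimplicialTree (component Δ u)

/-- The ideal `N(Δ) + (x_1^2, ..., x_n^2)` of the polynomial ring `K[x_1, ..., x_n]`, where
`N(Δ)` is generated by the monomials `∏_{i ∈ σ} x_i` of the non-faces `σ`. -/
noncomputable def faceIdeal (K : Type*) [Field K] (Δ : Set (Finset (Fin n))) :
    Ideal (MvPolynomial (Fin n) K) :=
  Ideal.span {p | ∃ σ : Finset (Fin n), σ ∉ Δ ∧ p = ∏ i ∈ σ, X i} ⊔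
    Ideal.span {p | ∃ i : Fin n, p = X i ^ 2}

/-- The algebra `A(Δ)`. -/
abbrev faceAlgebra (K : Type*) [Field K] (Δ : Set (Finset (Fin n))) : Type _ :=
  MvPolynomial (Fin n) K ⧸ faceIdeal K Δ

/-- The graded piece `A(Δ)_i`: the image of the homogeneous polynomials of degree `i`. -/
noncomputable def gradedPart (K : Type*) [Field K] (Δ : Set (Finset (Fin n))) (i : ℕ) :
    Submodule K (faceAlgebra K Δ) :=
  (homogeneousSubmodule (Fin n) K i).map (Ideal.Quotient.mkₐ K (faceIdeal K Δ)).toLinearMap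

/-- The class in `A(Δ)` of the linear form `a_1 x_1 + ... + a_n x_n`. -/
noncomputable def linearForm (K : Type*) [Field K] (Δ : Set (Finset (Fin n))) (a : Fin n → K) :
    faceAlgebra K Δ :=
  Ideal.Quotient.mk (faceIdeal K Δ) (∑ i, C (a i) * X i)

/-- `L` is a strong Lefschetz element of `A(Δ)`: for all `i, j ≥ 0` the map
`×L^j : A(Δ)_i → A(Δ)_{i+j}` has full rank, that is, it is injective or surjective. -/
def IsStrongLefschetz (K : Type*) [Field K] (Δ : Set (Finset (Fin n)))
    (L : faceAlgebra K Δ) : Prop :=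
  ∀ i j : ℕ,
    (∀ f ∈ gradedPart K Δ i, L ^ j * f = 0 → f = 0) ∨
    (∀ g ∈ gradedPart K Δ (i + j), ∃ f ∈ gradedPart K Δ i, L ^ j * f = g)

/-! ### The combinatorics of forests -/

theorem exists_facet {Δ : Set (Finset (Fin n))} {σ : Finset (Fin n)} (hσ : σ ∈ Δ) :
    ∃ F, IsFacet Δ F ∧ σ ⊆ F := by
  obtain ⟨F, hF, hmax⟩ := (Set.toFinite {τ | τ ∈ Δ ∧ σ ⊆ τ}).exists_le_maximal
    (show σ ∈ {τ | τ ∈ Δ ∧ σ ⊆ τ} from ⟨hσ, Finset.Subset.refl _⟩)
  refine ⟨F, ⟨hmax.1.1, fun τ hτ hle => hmax.2 ⟨hτ, hF.trans hle⟩ hle⟩, hF⟩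

theorem isFacet_generatedBy {Δ : Set (Finset (Fin n))} {S : Set (Finset (Fin n))}
    (hS : ∀ F ∈ S, IsFacet Δ F) (F : Finset (Fin n)) :
    IsFacet (generatedBy S) F ↔ F ∈ S := by
  constructor
  · rintro ⟨⟨G, hG, hFG⟩, hmax⟩
    have := hmax (show G ∈ generatedBy S from ⟨G, hG, Finset.Subset.refl _⟩) hFG
    have : F = G := Finset.Subset.antisymm hFG this
    exact this ▸ hG
  · intro hF
    refine ⟨⟨F, hF, Finset.Subset.refl _⟩, ?_⟩
    rintro τ ⟨G, hG, hτG⟩ hle
    have h1 : F ⊆ G := Finset.Subset.trans hle hτG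
    have h2 : G ≤ F := (hS F hF).2 (hS G hG).1 h1
    exact Finset.Subset.trans hτG h2

theorem forest_leaf {Δ : Set (Finset (Fin n))} (hΔ : IsLowerSet Δ) (hf : IsSimplicialForest Δ)
    (T : Finset (Finset (Fin n))) (hT : ∀ F ∈ T, IsFacet Δ F) (hne : T.Nonempty) :
    ∃ F ∈ T, (∀ F' ∈ T, F' = F) ∨
      ∃ G ∈ T, G ≠ F ∧ ∀ F' ∈ T, F' ≠ F → F ∩ F' ⊆ F ∩ G := by
  obtain ⟨F₀, hF₀⟩ := hne
  rcases F₀.eq_empty_or_nonempty with rfl | ⟨u, hu⟩
  · refine ⟨∅, hF₀, Or.inl fun F' hF' => ?_⟩
    have := (hT ∅ hF₀).2 (hT F' hF').1 (Finset.empty_subset _)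
    exact Finset.subset_empty.mp this
  have huΔ : ({u} : Finset (Fin n)) ∈ Δ :=
    hΔ (Finset.singleton_subset_iff.mpr hu) (hT F₀ hF₀).1
  obtain ⟨_, htree⟩ := hf u huΔ
  have hcomp : ∀ F ∈ T, F ∈ component Δ u → IsFacet (component Δ u) F := by
    intro F hF hFc
    exact ⟨hFc, fun τ hτ hle => (hT F hF).2 hτ.1 hle⟩
  have hdisj : ∀ F ∈ component Δ u, ∀ F' ∈ T, F' ∉ component Δ u → F ∩ F' = ∅ := by
    intro F hF F' hF' hnot
    by_contra hcon
    obtain ⟨v, hv⟩ := Finset.nonempty_iff_ne_empty.mpr hcon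
    obtain ⟨hvF, hvF'⟩ := Finset.mem_inter.mp hv
    refine hnot ⟨(hT F' hF').1, fun w hw => ?_⟩
    refine Relation.ReflTransGen.tail (hF.2 v hvF) ?_
    refine hΔ ?_ (hT F' hF').1
    intro x hx
    rcases Finset.mem_insert.mp hx with rfl | hx
    · exact hvF'
    · exact (Finset.mem_singleton.mp hx) ▸ hw
  have hS : ∀ F ∈ {F | F ∈ T ∧ F ∈ component Δ u}, IsFacet (component Δ u) F :=
    fun F hF => hcomp F hF.1 hF.2
  obtain ⟨F, hFfacet, hF⟩ := htree {F | F ∈ T ∧ F ∈ component Δ u} (by
    refine ⟨F₀, hF₀, (hT F₀ hF₀).1, fun v hv => ?_⟩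
    refine Relation.ReflTransGen.single ?_
    refine hΔ ?_ (hT F₀ hF₀).1
    intro x hx
    rcases Finset.mem_insert.mp hx with rfl | hx
    · exact hu
    · exact (Finset.mem_singleton.mp hx) ▸ hv) hS
  rw [isFacet_generatedBy hS] at hFfacet
  refine ⟨F, hFfacet.1, ?_⟩
  rcases hF with hF | ⟨G, hGf, hGF, hG⟩
  · by_cases hall : ∀ F' ∈ T, F' = F
    · exact Or.inl hall
    · right
      push Not at hall
      obtain ⟨G, hG, hGF⟩ := hall
      have key : ∀ F' ∈ T, F' ≠ F → F' ∉ component Δ u := by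
        intro F' hF' hne hc
        exact hne (hF F' ((isFacet_generatedBy hS F').mpr ⟨hF', hc⟩))
      refine ⟨G, hG, hGF, fun F' hF' hne => ?_⟩
      rw [hdisj F hFfacet.2 F' hF' (key F' hF' hne)]
      exact Finset.empty_subset _
  · rw [isFacet_generatedBy hS] at hGf
    refine Or.inr ⟨G, hGf.1, hGF, fun F' hF' hne => ?_⟩
    by_cases hc : F' ∈ component Δ u
    · exact hG F' ((isFacet_generatedBy hS F').mpr ⟨hF', hc⟩) hne
    · rw [hdisj F hFfacet.2 F' hF' hc]
      exact Finset.empty_subset _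

/-! ### The algebra -/

section algebra

variable {K : Type*} [Field K]

/-- The exponent vector of the squarefree monomial of `σ`. -/
noncomputable def ind (σ : Finset (Fin n)) : Fin n →₀ ℕ := ∑ i ∈ σ, Finsupp.single i 1

theorem ind_apply (σ : Finset (Fin n)) (i : Fin n) : ind σ i = if i ∈ σ then 1 else 0 := by
  unfold ind
  rw [Finsupp.finsetSum_apply]
  simp [Finsupp.single_apply]

theorem ind_support (σ : Finset (Fin n)) : (ind σ).support = σ := by
  ext i
  rw [Finsupp.mem_support_iff, ind_apply]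
  simp

theorem ind_injective {σ τ : Finset (Fin n)} (h : ind σ = ind τ) : σ = τ := by
  rw [← ind_support σ, h, ind_support]

theorem prod_X_eq (σ : Finset (Fin n)) :
    (∏ i ∈ σ, X i : MvPolynomial (Fin n) K) = monomial (ind σ) 1 := by
  unfold ind
  rw [monomial_sum_one]
  rfl

theorem ind_degree (σ : Finset (Fin n)) : (ind σ).degree = σ.card := by
  unfold ind
  simp

theorem ind_erase {σ : Finset (Fin n)} {v : Fin n} (hv : v ∈ σ) :
    ind σ - Finsupp.single v 1 = ind (σ.erase v) := by
  ext i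
  rw [Finsupp.tsub_apply, ind_apply, ind_apply, Finsupp.single_apply]
  by_cases h : v = i
  · subst h; simp [hv]
  · simp [h, Finset.mem_erase, Ne.symm h]

/-- The coefficient function of a polynomial on squarefree monomials. -/
noncomputable def cf (p : MvPolynomial (Fin n) K) : Finset (Fin n) → K :=
  fun τ => coeff (ind τ) p

theorem cf_mul_linear (a : Fin n → K) (p : MvPolynomial (Fin n) K) :
    cf ((∑ i, C (a i) * X i) * p) = Pool.Agent.H2.SLP.up a (cf p) := by
  funext τ
  unfold cf Pool.Agent.H2.SLP.up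
  rw [Finset.sum_mul, coeff_sum]
  have h1 : ∀ v : Fin n, coeff (ind τ) (C (a v) * X v * p) =
      if v ∈ τ then a v * coeff (ind (τ.erase v)) p else 0 := by
    intro v
    rw [mul_assoc, coeff_C_mul, coeff_X_mul', ind_support]
    split_ifs with h
    · rw [ind_erase h]
    · rw [mul_zero]
  rw [Finset.sum_congr rfl fun v _ => h1 v, ← Finset.sum_filter]
  simp

theorem cf_pow_mul_linear (a : Fin n → K) (p : MvPolynomial (Fin n) K) (j : ℕ) :
    cf ((∑ i, C (a i) * X i) ^ j * p) = (Pool.Agent.H2.SLP.up a)^[j] (cf p) := by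
  induction j with
  | zero => simp
  | succ j ih =>
    rw [Function.iterate_succ_apply', ← ih, ← cf_mul_linear, pow_succ' (∑ i, C (a i) * X i) j,
      mul_assoc]

theorem monomial_cases (m : Fin n →₀ ℕ) : (∃ τ, m = ind τ) ∨ (∃ i, 2 ≤ m i) := by
  by_cases h : ∃ i, 2 ≤ m i
  · exact Or.inr h
  · left
    push Not at h
    refine ⟨m.support, ?_⟩
    ext i
    rw [ind_apply]
    have := h i
    by_cases hi : m i = 0
    · simp [hi]
    · simp [hi]; omega

theorem sq_mem (Δ : Set (Finset (Fin n))) (m : Fin n →₀ ℕ) (c : K) (i : Fin n) (h : 2 ≤ m i) :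
    monomial m c ∈ faceIdeal K Δ := by
  have h1 : monomial m c = monomial (m - Finsupp.single i 2) c * X i ^ 2 := by
    have hm : m - Finsupp.single i 2 + Finsupp.single i 2 = m := by
      ext k
      by_cases hk : i = k
      · subst hk; simp; omega
      · simp [hk]
    rw [X_pow_eq_monomial, monomial_mul, mul_one, hm]
  rw [h1]
  refine Ideal.mul_mem_left _ _ ?_
  exact Ideal.mem_sup_right (Ideal.subset_span ⟨i, rfl⟩)

theorem nonface_mem {Δ : Set (Finset (Fin n))} {τ : Finset (Fin n)} (h : τ ∉ Δ) (c : K) :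
    monomial (ind τ) c ∈ faceIdeal K Δ := by
  have h1 : monomial (ind τ) c = C c * ∏ i ∈ τ, X i := by
    rw [prod_X_eq, C_mul_monomial, mul_one]
  rw [h1]
  exact Ideal.mul_mem_left _ _ (Ideal.mem_sup_left (Ideal.subset_span ⟨τ, h, rfl⟩))

theorem mem_faceIdeal_iff {Δ : Set (Finset (Fin n))} (hΔ : IsLowerSet Δ)
    (p : MvPolynomial (Fin n) K) : p ∈ faceIdeal K Δ ↔ ∀ τ ∈ Δ, cf p τ = 0 := by
  constructor
  · intro hp
    unfold faceIdeal at hp
    rw [← Ideal.span_union] at hp
    induction hp using Submodule.span_induction with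
    | mem q hq =>
      intro τ hτ
      unfold cf
      rcases hq with ⟨σ, hσ, rfl⟩ | ⟨i, rfl⟩
      · rw [prod_X_eq, coeff_monomial, if_neg]
        intro h
        exact hσ (ind_injective h ▸ hτ)
      · rw [X_pow_eq_monomial, coeff_monomial, if_neg]
        intro h
        have := DFunLike.congr_fun h i
        rw [ind_apply] at this
        simp at this
        split_ifs at this <;> omega
    | zero => intro τ _; simp [cf]
    | add x y _ _ hx hy =>
      intro τ hτ
      have h1 := hx τ hτ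
      have h2 := hy τ hτ
      unfold cf at *
      rw [coeff_add, h1, h2, add_zero]
    | smul q x _ hx =>
      intro τ hτ
      unfold cf
      rw [smul_eq_mul, coeff_mul]
      refine Finset.sum_eq_zero fun m hm => ?_
      have hm' := Finset.HasAntidiagonal.mem_antidiagonal.mp hm
      have hle : m.2 ≤ ind τ := by rw [← hm']; exact le_add_self
      rcases monomial_cases m.2 with ⟨ρ, hρ⟩ | ⟨i, hi⟩
      · have hsub : ρ ⊆ τ := by
          intro k hk
          have := hle k
          rw [hρ, ind_apply, ind_apply, if_pos hk] at this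
          by_contra hkτ
          rw [if_neg hkτ] at this
          omega
        have := hx ρ (hΔ hsub hτ)
        unfold cf at this
        rw [hρ, this, mul_zero]
      · exfalso
        have := hle i
        rw [ind_apply] at this
        split_ifs at this <;> omega
  · intro h
    rw [as_sum p]
    refine Ideal.sum_mem _ fun m _ => ?_
    rcases monomial_cases m with ⟨τ, rfl⟩ | ⟨i, hi⟩
    · by_cases hτ : τ ∈ Δ
      · have := h τ hτ
        unfold cf at this
        rw [this, monomial_zero]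
        exact Ideal.zero_mem _
      · exact nonface_mem hτ _
    · exact sq_mem Δ m _ i hi

/-- The class of the squarefree monomial of `σ`. -/
noncomputable def xs (Δ : Set (Finset (Fin n))) (σ : Finset (Fin n)) : faceAlgebra K Δ :=
  Ideal.Quotient.mk (faceIdeal K Δ) (monomial (ind σ) 1)

theorem mk_X_mul_xs_mem {Δ : Set (Finset (Fin n))} {σ : Finset (Fin n)} {v : Fin n}
    (hv : v ∈ σ) : Ideal.Quotient.mk (faceIdeal K Δ) (X v) * xs Δ σ = 0 := by
  unfold xs
  rw [← map_mul, Ideal.Quotient.eq_zero_iff_mem]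
  have : (X v * monomial (ind σ) 1 : MvPolynomial (Fin n) K) =
      monomial (Finsupp.single v 1 + ind σ) 1 := by
    rw [X, monomial_mul, one_mul]
  rw [this]
  refine sq_mem Δ _ _ v ?_
  rw [Finsupp.add_apply, ind_apply, if_pos hv, Finsupp.single_eq_same]

theorem mk_X_mul_xs_notMem {Δ : Set (Finset (Fin n))} {σ : Finset (Fin n)} {v : Fin n}
    (hv : v ∉ σ) : Ideal.Quotient.mk (faceIdeal K Δ) (X v) * xs Δ σ = xs Δ (insert v σ) := by
  unfold xs
  rw [← map_mul]
  congr 1
  rw [X, monomial_mul, one_mul]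
  congr 2
  unfold ind
  rw [Finset.sum_insert hv]

theorem linearForm_mul_xs (Δ : Set (Finset (Fin n))) (a : Fin n → K) (σ : Finset (Fin n)) :
    linearForm K Δ a * xs Δ σ = ∑ v ∈ Finset.univ \ σ, a v • xs Δ (insert v σ) := by
  unfold linearForm
  rw [map_sum, Finset.sum_mul]
  have h1 : ∀ v : Fin n, Ideal.Quotient.mk (faceIdeal K Δ) (C (a v) * X v) * xs Δ σ =
      if v ∈ Finset.univ \ σ then a v • xs Δ (insert v σ) else 0 := by
    intro v
    rw [map_mul, mul_assoc]
    have h2 : ∀ y : faceAlgebra K Δ, Ideal.Quotient.mk (faceIdeal K Δ) (C (a v)) * y =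
        a v • y := by
      intro y
      obtain ⟨q, rfl⟩ := Ideal.Quotient.mk_surjective y
      rw [← map_mul, C_mul']
      rfl
    split_ifs with h
    · rw [mk_X_mul_xs_notMem (by simpa using h), h2]
    · rw [mk_X_mul_xs_mem (by simpa using h), mul_zero]
  rw [Finset.sum_congr rfl fun v _ => h1 v, ← Finset.sum_filter]
  congr 1
  ext v
  simp

end algebra

/-- **Pure simplicial forests have the strong Lefschetz property.** Let `Δ` be a pure
simplicial forest on the vertex set `{1, ..., n}` and `K` a field whose characteristic is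
zero or larger than the size of every face of `Δ` (that is, larger than `dim Δ + 1`). Then
every linear form `a_1 x_1 + ... + a_n x_n` with all coefficients nonzero, in particular
`x_1 + ... + x_n`, is a strong Lefschetz element of `A(Δ)`. -/
theorem result (K : Type*) [Field K] (n : ℕ) (Δ : Set (Finset (Fin n))) (hΔ : IsLowerSet Δ)
    (hpure : IsPure Δ) (hforest : IsSimplicialForest Δ)
    (hchar : ringChar K = 0 ∨ ∀ F ∈ Δ, F.card < ringChar K)
    (a : Fin n → K) (ha : ∀ i, a i ≠ 0) :
    IsStrongLefschetz K Δ (linearForm K Δ a) := by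
  classical
  -- invertibility of small integers
  have hK : ∀ F ∈ Δ, ∀ m : ℕ, 1 ≤ m → m ≤ F.card → (m : K) ≠ 0 := by
    intro F hF m h1 h2 h0
    have hdvd : ringChar K ∣ m := (ringChar.spec K m).mp h0
    rcases hchar with hc | hc
    · rw [hc] at hdvd
      have := Nat.eq_zero_of_zero_dvd hdvd
      omega
    · have := hc F hF
      have := Nat.le_of_dvd (by omega) hdvd
      omega
  intro i j
  by_cases hcase : ∀ F, IsFacet Δ F → 2 * i + j ≤ F.card
  · -- injectivity
    left
    rintro f ⟨p, hp, rfl⟩ hf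
    have hp' : p.IsHomogeneous i := hp
    have h0 : (∑ k, C (a k) * X k) ^ j * p ∈ faceIdeal K Δ := by
      rw [← Ideal.Quotient.eq_zero_iff_mem, map_mul, map_pow]
      exact hf
    rw [mem_faceIdeal_iff hΔ, cf_pow_mul_linear] at h0
    refine Ideal.Quotient.eq_zero_iff_mem.mpr ((mem_faceIdeal_iff hΔ p).mpr fun τ hτ => ?_)
    obtain ⟨F, hF, hτF⟩ := exists_facet hτ
    refine Pool.Agent.H2.SLP.bool_inj a F (fun v _ => ha v) (hK F hF.1) i j (cf p) (hcase F hF)
      (fun σ _ hc => ?_) (fun σ hσ => h0 σ (hΔ hσ hF.1)) τ hτF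
    by_contra hne
    have := hp' hne
    rw [← ind_degree σ] at hc
    apply hc
    rw [← this, Finsupp.degree_eq_weight_one]
    rfl
  · -- surjectivity
    right
    push Not at hcase
    obtain ⟨F₀, hF₀, hlt⟩ := hcase
    intro g hg
    by_contra hcon
    push Not at hcon
    let ML : faceAlgebra K Δ →ₗ[K] faceAlgebra K Δ := LinearMap.mulLeft K (linearForm K Δ a ^ j)
    have hgnot : g ∉ (gradedPart K Δ i).map ML := by
      rintro ⟨f, hf, hfg⟩
      exact hcon f hf hfg
    obtain ⟨φ, hφg, hφ⟩ := Submodule.exists_le_ker_of_notMem hgnot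
    have hdown : ∀ (k : ℕ) (σ : Finset (Fin n)),
        ((Pool.Agent.H2.SLP.down a Finset.univ)^[k] (fun τ => φ (xs Δ τ))) σ =
          φ (linearForm K Δ a ^ k * xs Δ σ) := by
      intro k
      induction k with
      | zero => intro σ; simp
      | succ k ih =>
        intro σ
        rw [Function.iterate_succ_apply', pow_succ, mul_assoc, linearForm_mul_xs]
        unfold Pool.Agent.H2.SLP.down
        rw [Finset.mul_sum, map_sum]
        refine Finset.sum_congr rfl fun v _ => ?_
        have := ih (insert v σ)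
        rw [mul_smul_comm, map_smul, smul_eq_mul, ← this]
        rfl
    have hzero := Pool.Agent.H2.SLP.forest_dual a F₀.card ha (hK F₀ hF₀.1) i j
      (fun τ => φ (xs Δ τ)) (by omega) (by
        intro σ hσ
        rw [hdown]
        have : linearForm K Δ a ^ j * xs Δ σ ∈ (gradedPart K Δ i).map ML := by
          refine ⟨xs Δ σ, ⟨monomial (ind σ) 1, ?_, rfl⟩, rfl⟩
          refine isHomogeneous_monomial 1 ?_
          rw [ind_degree, hσ]
        exact LinearMap.mem_ker.mp (hφ this))
      (Finset.univ.filter (fun F => IsFacet Δ F))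
      (fun F hF => hpure F F₀ (Finset.mem_filter.mp hF).2 hF₀)
      (fun T hT hne => forest_leaf hΔ hforest T (fun F hF => (Finset.mem_filter.mp (hT hF)).2) hne)
      (fun F hF F' hF' hle => Finset.Subset.antisymm hle
        ((Finset.mem_filter.mp hF).2.2 (Finset.mem_filter.mp hF').2.1 hle))
      (by
        intro τ _ hτ
        have hnot : τ ∉ Δ := by
          intro h
          obtain ⟨F, hF, hτF⟩ := exists_facet h
          exact hτ F (Finset.mem_filter.mpr ⟨Finset.mem_univ _, hF⟩) hτF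
        have : xs (K := K) Δ τ = 0 := Ideal.Quotient.eq_zero_iff_mem.mpr (nonface_mem hnot 1)
        change φ (xs Δ τ) = 0
        rw [this, map_zero])
    apply hφg
    obtain ⟨p, hp, rfl⟩ := hg
    have hp' : p.IsHomogeneous (i + j) := hp
    rw [as_sum p, map_sum, map_sum]
    refine Finset.sum_eq_zero fun m hm => ?_
    have hmdeg := hp' (mem_support_iff.mp hm)
    rcases monomial_cases m with ⟨τ, rfl⟩ | ⟨k, hk⟩
    · have h1 : τ.card = i + j := by
        rw [← ind_degree τ, ← hmdeg, Finsupp.degree_eq_weight_one]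
        rfl
      have h2 := hzero τ h1
      have h3 : monomial (ind τ) (coeff (ind τ) p) = (coeff (ind τ) p) • monomial (ind τ) (1 : K) := by
        rw [smul_monomial, smul_eq_mul, mul_one]
      rw [h3, map_smul, map_smul]
      have h4 : φ ((Ideal.Quotient.mkₐ K (faceIdeal K Δ)).toLinearMap (monomial (ind τ) 1)) = 0 := h2
      rw [h4, smul_zero]
    · have : (Ideal.Quotient.mkₐ K (faceIdeal K Δ)).toLinearMap (monomial m (coeff m p)) = 0 :=
        Ideal.Quotient.eq_zero_iff_mem.mpr (sq_mem Δ m _ k hk)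
      rw [this, map_zero]

end Pool.Agent.Results.MP_cb4cd2_al.PureForestSLP
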